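import Mathlib
import Pool.Agent.Helper65.Comp.Main3
import Pool.Agent.TH442.NF.Fin
import Pool.Agent.TH603.Cut.Deg

set_option autoImplicit false

/-!
# Nef classes with few clusters of multiplicities are non-special

Let `P 1, …, P n` be very general points of the complex projective plane, and let `(d; w)` be a nef
class on the blow-up `X_n`. If finitely many reflections in classes `H - E_i - E_j - E_k` carry
`(d; w)` to a class `(d'; w')` which is `Good`, then `(d; w)` is non-special: at some of the points `w'`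
is at most a vector `v` with many points in few clusters (`Many`), equal to it or with
`χ (d'; v) ≥ 0`, and `w' ≤ 1` at the other points.
-/

namespace Pool.Agent.Results.MP_0f5763_ag.NefFewClusters

open MvPolynomial

/-- The number of different values of `⌊√(v i)⌋`. -/
def clusters {k : ℕ} (v : Fin k → ℕ) : ℕ := (Finset.univ.image fun i => Nat.sqrt (v i)).card

/-- Many points in few clusters. -/
def Many {k : ℕ} (v : Fin k → ℕ) : Prop :=
  (∀ i, 1 ≤ v i) ∧ ∃ μ r : ℕ, 1 ≤ μ ∧ 1 ≤ r ∧ (∀ i, v i ≤ μ) ∧ (clusters v ≤ r ∨ Nat.sqrt μ ≤ r) ∧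
    10 ^ 17 * r * μ ^ 2 * (Nat.log 2 μ + 1) ^ 5 ≤ ∑ i, v i ^ 2

/-- Good classes. -/
def Good {n : ℕ} (d : ℕ) (w : Fin n → ℕ) : Prop :=
  ∃ (k : ℕ) (e : Fin k ↪ Fin n) (v : Fin k → ℕ), Many v ∧ (∀ i, i ∉ Set.range e → w i ≤ 1) ∧
    (∀ j, w (e j) ≤ v j) ∧ ((∀ j, w (e j) = v j) ∨ ∑ j, (v j + 1).choose 2 ≤ (d + 2).choose 2)

/-- The homogeneous ideal of the point `(p 0 : p 1 : 1)`. -/
noncomputable def pt (p : Fin 2 → ℂ) : Ideal (MvPolynomial (Fin 3) ℂ) :=
  Ideal.span {X 0 - C (p 0) * X 2, X 1 - C (p 1) * X 2}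

/-- The class `(d; w)` is nef at the points `P`: it meets every irreducible curve nonnegatively. An
irreducible curve other than the exceptional ones is given by an irreducible form `G` of degree `e`
with multiplicity exactly `u i` at `P i`. -/
def Nef {n : ℕ} (P : Fin n → Fin 2 → ℂ) (d : ℕ) (w : Fin n → ℕ) : Prop :=
  ∀ (G : MvPolynomial (Fin 3) ℂ) (e : ℕ) (u : Fin n → ℕ), Irreducible G → G.IsHomogeneous e →
    (∀ i, G ∈ pt (P i) ^ (u i) ∧ G ∉ pt (P i) ^ (u i + 1)) → ∑ i, w i * u i ≤ d * e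

/-- The linear system `(d; w)` at the points `P` is non-special: the space of forms of degree `d`
vanishing to order at least `w i` at `P i` has dimension
`max (0, (d + 1) (d + 2) / 2 - ∑ w i (w i + 1) / 2)`. -/
def NonSpecial {n : ℕ} (P : Fin n → Fin 2 → ℂ) (d : ℕ) (w : Fin n → ℕ) : Prop :=
  Module.finrank ℂ
    ↥(homogeneousSubmodule (Fin 3) ℂ d ⊓
      Submodule.restrictScalars ℂ (⨅ i : Fin n, pt (P i) ^ (w i)))
  = Nat.choose (d + 2) 2 - ∑ i, Nat.choose (w i + 1) 2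

/-- The reflection of the class `a = (d; w)`, `d H - ∑ w l E l`, in the class
`H - E (i 0) - E (i 1) - E (i 2)`: with `δ = d - w (i 0) - w (i 1) - w (i 2)`, the numbers
`d`, `w (i 0)`, `w (i 1)`, `w (i 2)` are increased by `δ`. -/
def reflect {n : ℕ} (i : Fin 3 → Fin n) (a : ℤ × (Fin n → ℤ)) : ℤ × (Fin n → ℤ) :=
  (a.1 + (a.1 - a.2 (i 0) - a.2 (i 1) - a.2 (i 2)),
    fun l => a.2 l + if l = i 0 ∨ l = i 1 ∨ l = i 2 then a.1 - a.2 (i 0) - a.2 (i 1) - a.2 (i 2)
      else 0)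

/-- Finitely many reflections carry `(d; w)` to `(d'; w')`. -/
def Carries {n : ℕ} (d : ℕ) (w : Fin n → ℕ) (d' : ℕ) (w' : Fin n → ℕ) : Prop :=
  Relation.ReflTransGen
    (fun a b : ℤ × (Fin n → ℤ) => ∃ i : Fin 3 → Fin n, Function.Injective i ∧ b = reflect i a)
    ((d : ℤ), fun l => (w l : ℤ)) ((d' : ℤ), fun l => (w' l : ℤ))

/-- `Very n Q`: the statement `Q` holds for all `n`-tuples of points outside countably many
hypersurfaces. -/
def Very (n : ℕ) (Q : (Fin n → Fin 2 → ℂ) → Prop) : Prop :=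
  ∃ F : ℕ → MvPolynomial (Fin n × Fin 2) ℂ, (∀ j, F j ≠ 0) ∧ ∀ P : Fin n → Fin 2 → ℂ,
    (∀ j, MvPolynomial.eval (fun ij : Fin n × Fin 2 => P ij.1 ij.2) (F j) ≠ 0) → Q P

theorem result (n : ℕ) : Very n fun P => ∀ (d : ℕ) (w : Fin n → ℕ), Nef P d w →
    ∀ (d' : ℕ) (w' : Fin n → ℕ), Carries d w d' w' → Good d' w' → NonSpecial P d w := by
  have hNef : ∀ {n : ℕ} {P : Fin n → Fin 2 → ℂ} {d : ℕ} {w : Fin n → ℕ}, Nef P d w →
      Pool.Agent.TH442.NF.NefAt P d w := by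
    intro n P d w h
    rw [Pool.Agent.TH442.NF.nefAt_iff]
    intro G e u hG
    have h1 := h G e u hG.irreducible hG.homogeneous hG.mult
    unfold Pool.Agent.TH167.SHDefs.inter
    have h2 : ((∑ i, w i * u i : ℕ) : ℤ) ≤ ((d * e : ℕ) : ℤ) := by exact_mod_cast h1
    push_cast at h2
    omega
  obtain ⟨F, hF, hF'⟩ := Pool.Agent.TH603.Cut.exists_family (Fin n × Fin 2)
  refine ⟨F, hF, fun P hP d w hN d' w' hc h => ?_⟩
  refine Pool.Agent.TH442.NF.of_chain (hF' _ hP) (hNef hN) hc fun P' hP' => ?_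
  exact Pool.Agent.Helper65.Comp.good_exp h hP'

end Pool.Agent.Results.MP_0f5763_ag.NefFewClusters
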